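import Mathlib
import Pool.Agent.H964R6.DF
import Pool.Agent.Results.MP_e2be99_lc.TensorNetworks

/-!
# A subexponential identity test for formulas with determinant gates

A determinant formula of width `w` is built from leaves by determinants of matrices of any size
whose entries are determinant formulas, and whose nonzero entries have a branch decomposition of
width at most `w`: they can be arranged at the leaves of a binary tree such that for every subtree
at most `w` rows and at most `w` columns have nonzero entries both inside and outside of the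
subtree. The depth of the nesting is not restricted, nor is the number of the leaves in which a
variable occurs. The leaves are arbitrary polynomials. The size `s` is the total size of the
leaves; the size of a leaf is the number of its variables if there are at most `w²` of them, and
otherwise the number of its pairs of a monomial and a variable of the monomial. For `w ≥ 2` sums
and products are determinants of width `w` (`df_add`, `df_mul`), so all arithmetic formulas are
determinant formulas; algebraic branching programs of small width, or with an underlying graph of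
small tree-width, are determinants of small width.

For all `n, w, k, s, d` an explicit set of at most `(L (n+1) (d+1)) ^ L` integer points,
`L = 123 w (⌊√s⌋ + w) + 2 k`, hits every polynomial of degree at most `d` that divides a nonzero
polynomial in `k` determinant formulas of width `w` and total size at most `s`.

The proof is the method of the starting `SubexponentialTest` files (`Pool.Agent.H532R2.DT`). The new
step is the count of parameters `DF.cmp`: restricted to a block of variables with `R ≥ 1`
occurrences, the polynomial computed by a determinant formula of width `w` is `α g + β` with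
constants `α`, `β` and a polynomial `g` with `O(w² R)` parameters, however deep the nesting is. It
uses a generalized Laplace expansion along the tree (`mn_union`), and the fact that the up to
`4 ^ (4 w)` minors of a constant matrix that matter between two cuts of the tree have only `O(w²)`
parameters (`minors_params`, by the Plücker relations).
-/

set_option autoImplicit false

namespace Pool.Agent.Results.MP_b2b50d_lc.DeterminantFormulas

open MvPolynomial Pool.Agent.H964R6 Pool.Agent.H820R5.BW

open Pool.Agent.Results.MP_e2be99_lc.TensorNetworks (points points_card points_bound point block)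

variable {F : Type*} [Field F]

/-- the number of occurrences in a block -/
def blk (w s : ℕ) : ℕ := Nat.sqrt s / w + 1

/-- the exponent -/
def expo (w k s : ℕ) : ℕ := 123 * w * (Nat.sqrt s + w) + 2 * k

/-- the explicit set of points -/
def tests (n w k s d : ℕ) : Finset (Fin n → ℤ) :=
  points n d (s / blk w s) (ellD w k (blk w s))

theorem ell_add_le {w : ℕ} (hw : 1 ≤ w) (k s : ℕ) :
    ellD w k (blk w s) + 4 * (s / blk w s) + 1 ≤ expo w k s := by
  have h1 : w * blk w s ≤ Nat.sqrt s + w := by
    have := Nat.div_mul_le_self (Nat.sqrt s) w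
    unfold blk
    have e : w * (Nat.sqrt s / w + 1) = Nat.sqrt s / w * w + w := by ring
    omega
  have h2 : Nat.sqrt s + 1 ≤ w * blk w s := by
    have := Nat.lt_div_mul_add (a := Nat.sqrt s) (b := w) (by omega)
    unfold blk
    have e : w * (Nat.sqrt s / w + 1) = Nat.sqrt s / w * w + w := by ring
    omega
  have h3 : s / blk w s ≤ w * (Nat.sqrt s + 1) := by
    refine Nat.div_le_of_le_mul ?_
    calc s ≤ (Nat.sqrt s + 1) * (Nat.sqrt s + 1) := (Nat.lt_succ_sqrt s).le
      _ ≤ (w * blk w s) * (Nat.sqrt s + 1) := Nat.mul_le_mul_right _ h2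
      _ = blk w s * (w * (Nat.sqrt s + 1)) := by ring
  have h4 : (98 * w ^ 2 + 20) * blk w s ≤ 118 * w * (Nat.sqrt s + w) := by
    have hw2 : 1 ≤ w ^ 2 := Nat.one_le_pow _ _ hw
    calc (98 * w ^ 2 + 20) * blk w s ≤ (118 * w ^ 2) * blk w s :=
          Nat.mul_le_mul_right _ (by omega)
      _ = 118 * w * (w * blk w s) := by ring
      _ ≤ _ := Nat.mul_le_mul_left _ h1
  have h5 : w * 1 ≤ w * w := Nat.mul_le_mul_left _ hw
  have h6 : 123 * w * (Nat.sqrt s + w) = 118 * w * (Nat.sqrt s + w) + 5 * (w * Nat.sqrt s) +
      5 * (w * w) := by ring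
  have h7 : w * (Nat.sqrt s + 1) = w * Nat.sqrt s + w := by ring
  unfold expo ellD
  omega

theorem one_le_ell (w k s : ℕ) : 1 ≤ ellD w k (blk w s) := by
  unfold ellD blk
  have : (98 * w ^ 2 + 20) * (Nat.sqrt s / w + 1) ≠ 0 :=
    Nat.mul_ne_zero (Nat.succ_ne_zero _) (Nat.succ_ne_zero _)
  omega

theorem tests_card {w : ℕ} (hw : 1 ≤ w) (n k s d : ℕ) :
    (tests n w k s d).card ≤ (expo w k s * (n + 1) * (d + 1)) ^ expo w k s := by
  have h1 := ell_add_le hw k s
  have h2 := one_le_ell w k s
  refine (points_card n d _ _ h2).trans ?_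
  have h3 : ellD w k (blk w s) * (n + 1) * (d + 1) ≤ expo w k s * (n + 1) * (d + 1) := by
    gcongr
    omega
  have h5 : expo w k s ≠ 0 := by omega
  have h4 : 1 ≤ expo w k s * (n + 1) * (d + 1) :=
    Nat.one_le_iff_ne_zero.2 (Nat.mul_ne_zero (Nat.mul_ne_zero h5 (Nat.succ_ne_zero n))
      (Nat.succ_ne_zero d))
  exact (Nat.pow_le_pow_left h3 _).trans (Nat.pow_le_pow_right h4 h1)

theorem tests_bound {w : ℕ} (hw : 1 ≤ w) (n k s d : ℕ) (p : Fin n → ℤ)
    (hp : p ∈ tests n w k s d) (i : Fin n) :
    |p i| ≤ ((expo w k s * d * (expo w k s * n * d + 1) ^ (expo w k s * n) : ℕ) : ℤ) := by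
  have h1 := ell_add_le hw k s
  refine (points_bound n d _ _ p hp i).trans (Int.ofNat_le.2 ?_)
  have h3 : ellD w k (blk w s) ≤ expo w k s := by omega
  have h4 : ellD w k (blk w s) + s / blk w s ≤ expo w k s := by omega
  gcongr
  omega

/-- **Subexponential identity test for formulas with determinant gates.** The explicit set
`tests n w k s d ⊆ ℤ^n` of at most `(L (n+1) (d+1)) ^ L` points, `L = 123 w (⌊√s⌋ + w) + 2 k`, hits
every polynomial of degree at most `d` that divides a nonzero polynomial in `k` polynomials computed
by determinant formulas of width `w ≥ 1` and total size at most `s`, over every field of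
characteristic zero. -/
theorem result [CharZero F] (n w k s d : ℕ) (hw : 1 ≤ w) :
    (tests n w k s d).card ≤ (expo w k s * (n + 1) * (d + 1)) ^ expo w k s ∧
    (∀ p ∈ tests n w k s d, ∀ i,
      |p i| ≤ ((expo w k s * d * (expo w k s * n * d + 1) ^ (expo w k s * n) : ℕ) : ℤ)) ∧
    ∀ (f : Fin k → MvPolynomial (Fin n) F) (o : Fin k → Fin n → ℕ),
      (∀ j, DF w (w ^ 2) (o j) (f j)) → ∑ j, ∑ i, o j i ≤ s →
      ∀ P : MvPolynomial (Fin k) F, aeval f P ≠ 0 →
      ∀ g : MvPolynomial (Fin n) F, g ∣ aeval f P → g.totalDegree ≤ d →
      ∃ p ∈ tests n w k s d, MvPolynomial.eval (fun i => (p i : F)) g ≠ 0 := by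
  classical
  refine ⟨tests_card hw n k s d, tests_bound hw n k s d, ?_⟩
  intro f o hf hs P h0 g hg hd
  by_contra hall
  push Not at hall
  obtain ⟨H, bl, hH, hbl, v, y, u, hv, hy, hu, hev⟩ := DF.seeds hw hf P h0 hg s d (blk w s) hs
    (Nat.le_add_left 1 _) hd
  obtain ⟨β, hβ⟩ := Pool.Agent.H530R2.exists_breaks bl hbl
  obtain ⟨pos, hpos1, hpos2⟩ := Pool.Agent.H530R2.exists_slots H hH
  apply hev
  have hcomm : n * ellD w k (blk w s) * d = ellD w k (blk w s) * n * d := by ring
  have hmem : point pos (fun l => if h : (pos l : ℕ) < n then v ⟨pos l, h⟩ else 0) β y u ∈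
      tests n w k s d := by
    unfold tests points
    rw [Finset.mem_image]
    refine ⟨⟨pos, fun l => ⟨if h : (pos l : ℕ) < n then v ⟨pos l, h⟩ else 0, ?_⟩, β,
      fun k => ⟨y k, Nat.lt_succ_of_le (hy k)⟩,
      fun c => ⟨u c, Nat.lt_succ_of_le (by rw [← hcomm]; exact hu c)⟩⟩, Finset.mem_univ _, rfl⟩
    split_ifs
    · exact Nat.lt_succ_of_le (hv _)
    · omega
  rw [← hall _ hmem]
  congr 2
  funext i
  have hblk : block β i = bl i := Fin.ext (hβ i)
  simp only [point]
  by_cases hi : i ∈ H
  · obtain ⟨l, hl⟩ := (hpos1 i).2 hi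
    rw [if_pos hi, if_pos ⟨l, hl⟩, Finset.sum_eq_single l]
    · rw [if_pos hl]
      have h1 : (pos l : ℕ) < n := by rw [hl]; exact i.isLt
      have h2 : (⟨pos l, h1⟩ : Fin n) = i := Fin.ext hl
      rw [dif_pos h1, h2]
      simp
    · intro l' _ hne'
      rw [if_neg]
      intro h
      exact hne' (hpos2 i l' l h hl)
    · simp
  · rw [if_neg hi, if_neg (fun h => hi ((hpos1 i).1 h)), hblk]
    push_cast
    rfl

/-- Remark: matrices with at most `w` rows and at most `w` columns. -/
theorem dec_of_size {K : Type*} [CommRing K] {a b w : ℕ} (ha : a ≤ w) (hb : b ≤ w)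
    (M : Matrix (Fin a) (Fin b) K) (E : Finset (Fin a × Fin b)) : Dec M w E := by
  classical
  induction E using Finset.induction_on with
  | empty => exact Dec.empty
  | insert x E hx ih =>
    rw [Finset.insert_eq]
    refine Dec.union (Dec.leaf x) ih (Finset.disjoint_singleton_left.2 hx) ?_ ?_
    · refine (Finset.card_le_univ _).trans ?_
      rwa [Fintype.card_fin]
    · refine (Finset.card_le_univ _).trans ?_
      rwa [Fintype.card_fin]

theorem df_C {n w c : ℕ} (r : F) : DF w c (0 : Fin n → ℕ) (C r : MvPolynomial (Fin n) F) := by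
  classical
  have h := DF.leaf (w := w) (c := c) (C r : MvPolynomial (Fin n) F)
  have h1 : occ c (C r : MvPolynomial (Fin n) F) = 0 := by
    funext i
    simp [occ]
  rwa [h1] at h

/-- Remark: products. -/
theorem df_mul {n w c : ℕ} (hw : 2 ≤ w) {o o' : Fin n → ℕ} {f g : MvPolynomial (Fin n) F}
    (hf : DF w c o f) (hg : DF w c o' g) : DF w c (o + o') (f * g) := by
  classical
  have h := DF.det (w := w) (c := c) !![f, C 0; C 0, g] Finset.univ
    (fun x => !![o, 0; 0, o'] x.1 x.2) (dec_of_size hw hw _ _) (fun _ _ _ => Finset.mem_univ _) (by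
      rintro ⟨i, j⟩ _
      fin_cases i <;> fin_cases j
      · exact hf
      · exact df_C 0
      · exact df_C 0
      · exact hg)
  rw [Fintype.sum_prod_type] at h
  simpa [Fin.sum_univ_two, Matrix.det_fin_two] using h

/-- Remark: sums. -/
theorem df_add {n w c : ℕ} (hw : 2 ≤ w) {o o' : Fin n → ℕ} {f g : MvPolynomial (Fin n) F}
    (hf : DF w c o f) (hg : DF w c o' g) : DF w c (o + o') (f + g) := by
  classical
  have h := DF.det (w := w) (c := c) !![f, C (-1); g, C 1] Finset.univ
    (fun x => !![o, 0; o', 0] x.1 x.2) (dec_of_size hw hw _ _) (fun _ _ _ => Finset.mem_univ _) (by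
      rintro ⟨i, j⟩ _
      fin_cases i <;> fin_cases j
      · exact hf
      · exact df_C (-1)
      · exact hg
      · exact df_C 1)
  rw [Fintype.sum_prod_type] at h
  simpa [Fin.sum_univ_two, Matrix.det_fin_two] using h

end Pool.Agent.Results.MP_b2b50d_lc.DeterminantFormulas
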