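import Mathlib

set_option autoImplicit false

namespace Pool.Agent.Results.MP_b2b50d_lc.FewLeadingTerms

open Finset

/-- The weight of an exponent vector. -/
def wt {n : ℕ} (w : Fin n → ℕ) (a : Fin n →₀ ℕ) : ℕ := ∑ i, w i * a i

/-- The nonzero polynomial `f` has a unique heaviest monomial for every positive integer weight
vector outside `e` hyperplanes with integer normal vectors. -/
def FewLead {n : ℕ} {R : Type*} [CommSemiring R] (e : ℕ) (f : MvPolynomial (Fin n) R) : Prop :=
  f ≠ 0 ∧ ∃ V : Finset (Fin n → ℤ), V.card ≤ e ∧ (∀ v ∈ V, v ≠ 0) ∧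
    ∀ w : Fin n → ℕ, (∀ i, 0 < w i) → (∀ v ∈ V, ∑ i, (w i : ℤ) * v i ≠ 0) →
      ∃ a ∈ f.support, ∀ b ∈ f.support, b ≠ a → wt w b < wt w a

/-- The exponent vector `a` occurs in `f` and is coordinatewise the largest one. -/
def Top {n : ℕ} {R : Type*} [CommSemiring R] (f : MvPolynomial (Fin n) R) (a : Fin n →₀ ℕ) :
    Prop :=
  a ∈ f.support ∧ ∀ b ∈ f.support, b ≤ a

lemma exists_prim {n p : ℕ} (hp : p.Prime) : ∀ (N : ℕ) (v : Fin n → ℤ) (i₀ : Fin n),
    v i₀ ≠ 0 → (v i₀).natAbs ≤ N → ∃ (c : ℤ) (v' : Fin n → ℤ), (∀ i, v i = c * v' i) ∧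
      ∃ i, ¬ (p : ℤ) ∣ v' i := by
  intro N
  induction N with
  | zero => intro v i₀ h0 h1; simp at h1; exact absurd h1 h0
  | succ N ih =>
    intro v i₀ h0 h1
    by_cases h : ∃ i, ¬ (p : ℤ) ∣ v i
    · exact ⟨1, v, fun i => by ring, h⟩
    · push Not at h
      choose v1 hv1 using h
      have hp2 := hp.two_le
      have h2 : v1 i₀ ≠ 0 := by
        intro h3; apply h0; rw [hv1, h3, mul_zero]
      have h3 : (v1 i₀).natAbs ≤ N := by
        have h4 : (v i₀).natAbs = p * (v1 i₀).natAbs := by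
          rw [hv1 i₀, Int.natAbs_mul, Int.natAbs_natCast]
        have h5 : 0 < (v1 i₀).natAbs := Int.natAbs_pos.2 h2
        nlinarith
      obtain ⟨c, v', hc, hi⟩ := ih v1 i₀ h2 h3
      exact ⟨p * c, v', fun i => by rw [hv1 i, hc i]; ring, hi⟩

open Polynomial in
lemma exists_k {n p : ℕ} (hp : p.Prime) (V : Finset (Fin n → ℤ)) (hV : V.card * (n - 1) + 1 < p) :
    ∃ k < p, (∀ i : Fin n, 0 < k ^ (i : ℕ) % p) ∧ ∀ v ∈ V, v ≠ 0 → ∑ i : Fin n, ((k ^ (i : ℕ) % p : ℕ) : ℤ) * v i ≠ 0 := by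
  classical
  have : Fact p.Prime := ⟨hp⟩
  have hprim : ∀ v : Fin n → ℤ, ∃ (c : ℤ) (v' : Fin n → ℤ), v ≠ 0 → ((∀ i, v i = c * v' i) ∧
      ∃ i, ¬ (p : ℤ) ∣ v' i) := by
    intro v
    by_cases hv : v = 0
    · exact ⟨0, 0, fun h => absurd hv h⟩
    · obtain ⟨i₀, hi₀⟩ := Function.ne_iff.1 hv
      obtain ⟨c, v', h1, h2⟩ := exists_prim hp _ v i₀ hi₀ le_rfl
      exact ⟨c, v', fun _ => ⟨h1, h2⟩⟩
  choose c v' hcv using hprim
  let P : (Fin n → ℤ) → (ZMod p)[X] := fun v => ∑ i : Fin n, C ((v' v i : ℤ) : ZMod p) * X ^ (i : ℕ)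
  have hdeg : ∀ v, (P v).natDegree ≤ n - 1 := by
    intro v
    refine natDegree_sum_le_of_forall_le _ _ fun i _ => ?_
    exact (natDegree_C_mul_X_pow_le _ _).trans (by have := i.2; omega)
  have hcoeff : ∀ v (i : Fin n), (P v).coeff i = ((v' v i : ℤ) : ZMod p) := by
    intro v i
    simp only [P, finsetSum_coeff, coeff_C_mul, coeff_X_pow]
    rw [Finset.sum_eq_single i]
    · simp
    · intro j _ hj
      rw [if_neg (fun h => hj (Fin.ext h.symm)), mul_zero]
    · intro h; exact absurd (Finset.mem_univ i) h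
  have hne : ∀ v, v ≠ 0 → P v ≠ 0 := by
    intro v hv h
    obtain ⟨i, hi⟩ := (hcv v hv).2
    apply hi
    rw [← ZMod.intCast_zmod_eq_zero_iff_dvd, ← hcoeff, h, coeff_zero]
  let B : Finset (ZMod p) := insert 0 (V.biUnion fun v => (P v).roots.toFinset)
  have hB : B.card < Fintype.card (ZMod p) := by
    rw [ZMod.card]
    refine lt_of_le_of_lt ((Finset.card_insert_le _ _).trans
      (Nat.succ_le_succ (Finset.card_biUnion_le.trans ?_))) hV
    rw [← smul_eq_mul, ← Finset.sum_const]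
    refine Finset.sum_le_sum fun v _ => ?_
    exact (Multiset.toFinset_card_le _).trans ((card_roots' _).trans (hdeg v))
  obtain ⟨κ, hκ⟩ : ∃ κ, κ ∉ B := by
    by_contra h
    push Not at h
    have : B = Finset.univ := Finset.eq_univ_iff_forall.2 h
    rw [this, Finset.card_univ] at hB
    exact lt_irrefl _ hB
  have hκ0 : κ ≠ 0 := fun h => hκ (h ▸ Finset.mem_insert_self _ _)
  refine ⟨κ.val, ZMod.val_lt κ, fun i => ?_, fun v hv hv0 hsum => ?_⟩
  · rw [Nat.pos_iff_ne_zero]
    intro h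
    have h1 : p ∣ κ.val ^ (i : ℕ) := Nat.dvd_of_mod_eq_zero h
    have h2 := hp.dvd_of_dvd_pow h1
    have h3 := Nat.eq_zero_of_dvd_of_lt h2 (ZMod.val_lt κ)
    exact hκ0 ((ZMod.val_eq_zero κ).1 h3)
  apply hκ
  refine Finset.mem_insert_of_mem (Finset.mem_biUnion.2 ⟨v, hv, ?_⟩)
  rw [Multiset.mem_toFinset, mem_roots (hne v hv0), IsRoot.def, eval_finsetSum]
  have hc0 : c v ≠ 0 := by
    intro h
    apply hv0
    funext i
    rw [(hcv v hv0).1 i, h, zero_mul]; rfl
  have h1 : ∑ i : Fin n, ((κ.val ^ (i : ℕ) % p : ℕ) : ℤ) * v' v i = 0 := by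
    have h2 : c v * ∑ i : Fin n, ((κ.val ^ (i : ℕ) % p : ℕ) : ℤ) * v' v i = 0 := by
      rw [Finset.mul_sum, ← hsum]
      refine Finset.sum_congr rfl fun i _ => ?_
      rw [(hcv v hv0).1 i]; ring
    exact (mul_eq_zero.1 h2).resolve_left hc0
  have h3 := congrArg (Int.cast : ℤ → ZMod p) h1
  push_cast at h3
  rw [← h3]
  refine Finset.sum_congr rfl fun i _ => ?_
  simp [mul_comm]


section hit

variable {F : Type*} [Field F] {n : ℕ}

open MvPolynomial in
lemma phi_eq (w : Fin n → ℕ) (f : MvPolynomial (Fin n) F) :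
    aeval (fun i => (Polynomial.X : Polynomial F) ^ w i) f =
      ∑ m ∈ f.support, Polynomial.C (f.coeff m) * Polynomial.X ^ (wt w m) := by
  rw [aeval_def, eval₂_eq']
  refine Finset.sum_congr rfl fun m _ => ?_
  simp only [← pow_mul, Finset.prod_pow_eq_pow_sum, wt]
  rfl

open MvPolynomial in
lemma phi_ne_zero (w : Fin n → ℕ) (f : MvPolynomial (Fin n) F)
    (hu : ∃ a ∈ f.support, ∀ b ∈ f.support, b ≠ a → wt w b < wt w a) :
    aeval (fun i => (Polynomial.X : Polynomial F) ^ w i) f ≠ 0 := by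
  obtain ⟨a, ha, hmax⟩ := hu
  intro h
  have h1 := congrArg (fun q => Polynomial.coeff q (wt w a)) (phi_eq w f)
  simp only [h, Polynomial.coeff_zero, Polynomial.finsetSum_coeff, Polynomial.coeff_C_mul,
    Polynomial.coeff_X_pow] at h1
  rw [Finset.sum_eq_single a] at h1
  · simp at h1
    exact (mem_support_iff.1 ha) h1.symm
  · intro b hb hba
    rw [if_neg, mul_zero]
    intro h2
    have := hmax b hb hba
    omega
  · intro h2; exact absurd ha h2

open MvPolynomial in
lemma phi_natDegree (w : Fin n → ℕ) (W : ℕ) (hW : ∀ i, w i ≤ W) (f : MvPolynomial (Fin n) F) :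
    (aeval (fun i => (Polynomial.X : Polynomial F) ^ w i) f).natDegree ≤ W * f.totalDegree := by
  rw [phi_eq]
  refine Polynomial.natDegree_sum_le_of_forall_le _ _ fun m hm => ?_
  refine (Polynomial.natDegree_C_mul_X_pow_le _ _).trans ?_
  have h1 := le_totalDegree hm
  rw [Finsupp.sum_fintype _ _ (fun _ => rfl)] at h1
  calc wt w m ≤ ∑ i, W * m i := Finset.sum_le_sum fun i _ => Nat.mul_le_mul_right _ (hW i)
    _ = W * ∑ i, m i := by rw [Finset.mul_sum]
    _ ≤ W * f.totalDegree := Nat.mul_le_mul_left _ h1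

open MvPolynomial in
lemma phi_eval (w : Fin n → ℕ) (f : MvPolynomial (Fin n) F) (t : F) :
    (aeval (fun i => (Polynomial.X : Polynomial F) ^ w i) f).eval t =
      eval (fun i => t ^ w i) f := by
  rw [phi_eq, Polynomial.eval_finsetSum, eval_eq']
  refine Finset.sum_congr rfl fun m _ => ?_
  simp only [Polynomial.eval_mul, Polynomial.eval_C, Polynomial.eval_pow, Polynomial.eval_X,
    ← pow_mul, Finset.prod_pow_eq_pow_sum, wt]

/-- A prime divisor of a product of members of the class divides a member of the class. -/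
lemma prime_dvd (S : Set (MvPolynomial (Fin n) F)) (π : MvPolynomial (Fin n) F) (hπ : Prime π)
    (G : MvPolynomial (Fin n) F) (hG : G ∈ Submonoid.closure S) (h : π ∣ G) : ∃ g ∈ S, π ∣ g := by
  revert h
  refine Submonoid.closure_induction (motive := fun x _ => π ∣ x → ∃ g ∈ S, π ∣ g) ?_ ?_ ?_ hG
  · intro x hx h
    exact ⟨x, hx, h⟩
  · intro h
    exact absurd (isUnit_of_dvd_one h) hπ.not_isUnit
  · intro x y _ _ hx hy h
    rcases hπ.dvd_or_dvd h with h | h
    · exact hx h
    · exact hy h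

lemma closure_ne_zero (S : Set (MvPolynomial (Fin n) F)) (hS : ∀ g ∈ S, g ≠ 0)
    (G : MvPolynomial (Fin n) F) (hG : G ∈ Submonoid.closure S) : G ≠ 0 := by
  refine Submonoid.closure_induction (motive := fun x _ => x ≠ 0) ?_ ?_ ?_ hG
  · exact hS
  · exact one_ne_zero
  · intro x y _ _ hx hy
    exact mul_ne_zero hx hy

open MvPolynomial in
lemma card_le_degree (M : Multiset (MvPolynomial (Fin n) F)) (hM : ∀ b ∈ M, Prime b) :
    M.prod ≠ 0 ∧ M.card ≤ M.prod.totalDegree := by
  induction M using Multiset.induction_on with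
  | empty => simp
  | cons a M ih =>
    have ha := hM a (Multiset.mem_cons_self a M)
    obtain ⟨h1, h2⟩ := ih (fun b hb => hM b (Multiset.mem_cons_of_mem hb))
    rw [Multiset.prod_cons, Multiset.card_cons]
    refine ⟨mul_ne_zero ha.ne_zero h1, ?_⟩
    rw [totalDegree_mul_of_isDomain ha.ne_zero h1]
    have h3 : 0 < a.totalDegree := by
      rw [Nat.pos_iff_ne_zero]
      intro h
      rw [totalDegree_eq_zero_iff_eq_C] at h
      apply ha.not_isUnit
      rw [h]
      refine IsUnit.map C ?_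
      rw [isUnit_iff_ne_zero]
      intro h4
      apply ha.ne_zero
      rw [h, h4, C_0]
    omega

open MvPolynomial in
/-- A weight which is good for all factors. -/
lemma exists_weight (e D q : ℕ) (hq : q.Prime) (hqn : D * e * n + 1 < q)
    (G : MvPolynomial (Fin n) F) (hG : G ∈ Submonoid.closure {g | FewLead e g})
    (g : MvPolynomial (Fin n) F) (hgG : g ∣ G) (hg : g.totalDegree ≤ D) :
    ∃ k < q, aeval (fun i : Fin n => (Polynomial.X : Polynomial F) ^ (k ^ (i : ℕ) % q)) g ≠ 0 := by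
  classical
  have hG0 := closure_ne_zero _ (fun g (hg : FewLead e g) => hg.1) G hG
  have hg0 : g ≠ 0 := by
    rintro rfl
    exact hG0 (zero_dvd_iff.1 hgG)
  obtain ⟨M, hM, u, hu⟩ := UniqueFactorizationMonoid.exists_prime_factors g hg0
  obtain ⟨hM0, hMc⟩ := card_le_degree M hM
  have hcard : M.card ≤ D := by
    refine hMc.trans (le_trans ?_ hg)
    rw [← hu, totalDegree_mul_of_isDomain hM0 u.ne_zero]
    exact Nat.le_add_right _ _
  have hV : ∀ π : MvPolynomial (Fin n) F, ∃ V : Finset (Fin n → ℤ), π ∈ M → V.card ≤ e ∧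
      (∀ v ∈ V, v ≠ 0) ∧ ∀ w : Fin n → ℕ, (∀ i, 0 < w i) →
        (∀ v ∈ V, ∑ i, (w i : ℤ) * v i ≠ 0) →
          aeval (fun i => (Polynomial.X : Polynomial F) ^ w i) π ≠ 0 := by
    intro π
    by_cases hπ : π ∈ M
    · have h1 : π ∣ G := by
        refine (Multiset.dvd_prod hπ).trans (Dvd.dvd.trans ?_ hgG)
        exact ⟨_, hu.symm⟩
      obtain ⟨g', hg', hd⟩ := prime_dvd _ π (hM π hπ) G hG h1
      obtain ⟨_, V, hV1, hV2, hV3⟩ := hg'
      refine ⟨V, fun _ => ⟨hV1, hV2, fun w hw hwV => ?_⟩⟩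
      have h2 := phi_ne_zero w g' (hV3 w hw hwV)
      obtain ⟨c, rfl⟩ := hd
      rw [map_mul] at h2
      exact left_ne_zero_of_mul h2
    · exact ⟨∅, fun h => absurd h hπ⟩
  choose V hV using hV
  have hc : (M.toFinset.biUnion V).card ≤ D * e := by
    refine Finset.card_biUnion_le.trans ?_
    refine (Finset.sum_le_card_nsmul _ _ e fun π hπ => (hV π (Multiset.mem_toFinset.1 hπ)).1).trans ?_
    rw [smul_eq_mul]
    exact Nat.mul_le_mul_right _ ((Multiset.toFinset_card_le M).trans hcard)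
  obtain ⟨k, hk, hk1, hk2⟩ := exists_k hq (M.toFinset.biUnion V) (by
    refine lt_of_le_of_lt (Nat.succ_le_succ ?_) hqn
    exact (Nat.mul_le_mul_right _ hc).trans (Nat.mul_le_mul_left _ (Nat.sub_le _ _)))
  refine ⟨k, hk, ?_⟩
  rw [← hu, map_mul]
  refine mul_ne_zero ?_ ?_
  · rw [map_multiset_prod]
    refine Multiset.prod_ne_zero ?_
    intro h
    obtain ⟨π, hπ, h0⟩ := Multiset.mem_map.1 h
    refine (hV π hπ).2.2 (fun i : Fin n => k ^ (i : ℕ) % q) hk1 (fun v hv => ?_) h0
    exact hk2 v (Finset.mem_biUnion.2 ⟨π, Multiset.mem_toFinset.2 hπ, hv⟩)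
      ((hV π hπ).2.1 v hv)
  · exact (u.isUnit.map (aeval (fun i : Fin n =>
      (Polynomial.X : Polynomial F) ^ (k ^ (i : ℕ) % q)))).ne_zero

end hit

/-- The least prime number greater than `D * e * n + 1`. -/
noncomputable def modulus (n e D : ℕ) : ℕ := by
  classical
  exact Nat.find (Nat.exists_infinite_primes (D * e * n + 2))

lemma modulus_spec (n e D : ℕ) : D * e * n + 1 < modulus n e D ∧ (modulus n e D).Prime ∧
    modulus n e D ≤ 2 * (D * e * n + 2) := by
  classical
  have h1 := Nat.find_spec (Nat.exists_infinite_primes (D * e * n + 2))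
  refine ⟨?_, ?_, ?_⟩
  · unfold modulus; convert Nat.lt_of_succ_le h1.1
  · unfold modulus; convert h1.2
  · obtain ⟨p, hp, h2, h3⟩ := Nat.exists_prime_lt_and_le_two_mul (D * e * n + 2) (by omega)
    refine le_trans ?_ h3
    unfold modulus
    convert Nat.find_min' (Nat.exists_infinite_primes (D * e * n + 2)) ⟨h2.le, hp⟩

/-- The explicit points `(t^(k^0 mod p), …, t^(k^(n-1) mod p))`, `k < p`, `t ≤ p D`, where `p` is
the least prime greater than `D e n + 1`. -/
noncomputable def points (n e D : ℕ) : Finset (Fin n → ℕ) := by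
  classical
  exact (Finset.range (modulus n e D) ×ˢ Finset.range (modulus n e D * D + 1)).image
    fun z i => z.2 ^ (z.1 ^ (i : ℕ) % modulus n e D)

/-- The sum of the absolute values of the coefficients. -/
def norm1 {n : ℕ} (g : MvPolynomial (Fin n) ℤ) : ℕ := ∑ m ∈ g.support, (g.coeff m).natAbs

open MvPolynomial in
lemma eval_bound {n : ℕ} (g : MvPolynomial (Fin n) ℤ) (x : Fin n → ℕ) (B : ℕ) (hB : 1 ≤ B)
    (hx : ∀ i, x i ≤ B) :
    (eval (fun i => (x i : ℤ)) g).natAbs ≤ norm1 g * B ^ g.totalDegree := by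
  rw [eval_eq']
  refine (Int.natAbs_sum_le _ _).trans ?_
  unfold norm1
  rw [Finset.sum_mul]
  refine Finset.sum_le_sum fun m hm => ?_
  rw [Int.natAbs_mul]
  refine Nat.mul_le_mul_left _ ?_
  have h1 : (∏ i, ((x i : ℤ)) ^ m i).natAbs = ∏ i, x i ^ m i := by
    have : (∏ i, ((x i : ℤ)) ^ m i) = ((∏ i, x i ^ m i : ℕ) : ℤ) := by push_cast; rfl
    rw [this, Int.natAbs_natCast]
  rw [h1]
  have h2 := le_totalDegree hm
  rw [Finsupp.sum_fintype _ _ (fun _ => rfl)] at h2
  calc ∏ i, x i ^ m i ≤ ∏ i, B ^ m i :=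
        Finset.prod_le_prod (fun _ _ => Nat.zero_le _) fun i _ => Nat.pow_le_pow_left (hx i) _
    _ = B ^ ∑ i, m i := by rw [Finset.prod_pow_eq_pow_sum]
    _ ≤ B ^ g.totalDegree := Nat.pow_le_pow_right hB h2

lemma exists_prime_not_dvd (P : Finset ℕ) (hP : ∀ p ∈ P, p.Prime) (z : ℕ) (hz : z ≠ 0)
    (hlt : z < 2 ^ P.card) : ∃ p ∈ P, ¬ p ∣ z := by
  by_contra h
  push Not at h
  have h1 : ∏ p ∈ P, p ∣ z := Finset.prod_primes_dvd z (fun p hp => (hP p hp).prime) h
  have h2 := Nat.le_of_dvd (Nat.pos_of_ne_zero hz) h1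
  have h3 : 2 ^ P.card ≤ ∏ p ∈ P, p := by
    rw [← Finset.prod_const]
    exact Finset.prod_le_prod (fun _ _ => Nat.zero_le _) fun p hp => (hP p hp).two_le
  omega

lemma wt_mono {n : ℕ} (w : Fin n → ℕ) {a b : Fin n →₀ ℕ} (h : a ≤ b) : wt w a ≤ wt w b :=
  Finset.sum_le_sum fun i _ => Nat.mul_le_mul_left _ (h i)

lemma eq_of_wt {n : ℕ} (w : Fin n → ℕ) (hw : ∀ i, 0 < w i) {a b : Fin n →₀ ℕ} (h : a ≤ b)
    (h1 : wt w b ≤ wt w a) : a = b := by
  by_contra hne
  obtain ⟨i, hi⟩ : ∃ i, a i ≠ b i := by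
    by_contra h2
    push Not at h2
    exact hne (Finsupp.ext h2)
  have h3 : wt w a < wt w b := by
    refine Finset.sum_lt_sum (fun j _ => Nat.mul_le_mul_left _ (h j)) ⟨i, Finset.mem_univ i, ?_⟩
    exact Nat.mul_lt_mul_of_pos_left (lt_of_le_of_ne (h i) hi) (hw i)
  omega

open MvPolynomial in
/-- Sums of polynomials with pairwise different largest exponent vectors. -/
lemma fewLead_sum {n s : ℕ} {F : Type*} [Field F] (hs : 0 < s)
    (g : Fin s → MvPolynomial (Fin n) F) (a : Fin s → (Fin n →₀ ℕ)) (ha : ∀ j, Top (g j) (a j))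
    (hinj : Function.Injective a) : FewLead (s * (s - 1)) (∑ j, g j) := by
  classical
  have key : ∀ w : Fin n → ℕ, (∀ i, 0 < w i) → (∀ i j : Fin s, i ≠ j → wt w (a i) ≠ wt w (a j)) →
      ∃ c ∈ (∑ j, g j).support, ∀ b ∈ (∑ j, g j).support, b ≠ c → wt w b < wt w c := by
    intro w hw hne
    obtain ⟨j₀, _, hj₀⟩ := Finset.exists_max_image (Finset.univ : Finset (Fin s))
      (fun j => wt w (a j)) ⟨⟨0, hs⟩, Finset.mem_univ _⟩
    refine ⟨a j₀, ?_, fun b hb hbne => ?_⟩
    · rw [mem_support_iff, coeff_sum, Finset.sum_eq_single j₀]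
      · exact mem_support_iff.1 (ha j₀).1
      · intro j _ hj
        by_contra h
        have h1 := (ha j).2 (a j₀) (mem_support_iff.2 h)
        have h2 := wt_mono w h1
        have h3 := hj₀ j (Finset.mem_univ j)
        exact hne j j₀ hj (le_antisymm h3 h2)
      · intro h; exact absurd (Finset.mem_univ j₀) h
    · obtain ⟨j, _, hj⟩ : ∃ j ∈ (Finset.univ : Finset (Fin s)), coeff b (g j) ≠ 0 := by
        refine Finset.exists_ne_zero_of_sum_ne_zero ?_
        rw [← coeff_sum]
        exact mem_support_iff.1 hb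
      have h1 := (ha j).2 b (mem_support_iff.2 hj)
      have h2 := wt_mono w h1
      have h3 := hj₀ j (Finset.mem_univ j)
      by_contra hcon
      have h4 : b = a j := eq_of_wt w hw h1 (by
        have : wt w (a j) ≤ wt w (a j₀) := h3
        omega)
      by_cases hjj : j = j₀
      · exact hbne (h4.trans (by rw [hjj]))
      · have h5 := hne j j₀ hjj
        have h6 : wt w (a j) ≤ wt w (a j₀) := h3
        rw [h4] at hcon
        omega
  have hnv : ∀ V : Finset (Fin n → ℤ), (∀ v ∈ V, v ≠ 0) → ∃ w : Fin n → ℕ, (∀ i, 0 < w i) ∧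
      ∀ v ∈ V, ∑ i, (w i : ℤ) * v i ≠ 0 := by
    intro V hV
    obtain ⟨p, hp1, hp2⟩ := Nat.exists_infinite_primes (V.card * (n - 1) + 2)
    obtain ⟨k, _, h1, h2⟩ := exists_k hp2 V (by omega)
    exact ⟨_, h1, fun v hv => h2 v hv (hV v hv)⟩
  let V : Finset (Fin n → ℤ) := (Finset.univ : Finset (Fin s)).offDiag.image
    fun q i => (a q.1 i : ℤ) - a q.2 i
  have hV0 : ∀ v ∈ V, v ≠ 0 := by
    intro v hv
    obtain ⟨q, hq, rfl⟩ := Finset.mem_image.1 hv
    intro h
    apply (Finset.mem_offDiag.1 hq).2.2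
    apply hinj
    refine Finsupp.ext fun i => ?_
    have := congrFun h i
    simp only [Pi.zero_apply] at this
    omega
  have hVw : ∀ w : Fin n → ℕ, (∀ v ∈ V, ∑ i, (w i : ℤ) * v i ≠ 0) →
      ∀ i j : Fin s, i ≠ j → wt w (a i) ≠ wt w (a j) := by
    intro w hw i j hij h
    apply hw _ (Finset.mem_image.2 ⟨(i, j), Finset.mem_offDiag.2 ⟨Finset.mem_univ _,
      Finset.mem_univ _, hij⟩, rfl⟩)
    have h1 : ((wt w (a i) : ℕ) : ℤ) = wt w (a j) := by rw [h]
    unfold wt at h1
    push_cast at h1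
    calc ∑ l, (w l : ℤ) * ((a i l : ℤ) - a j l)
        = ∑ l, (w l : ℤ) * (a i l : ℤ) - ∑ l, (w l : ℤ) * (a j l : ℤ) := by
          rw [← Finset.sum_sub_distrib]
          exact Finset.sum_congr rfl fun l _ => by ring
      _ = 0 := by rw [h1, sub_self]
  refine ⟨?_, V, ?_, hV0, fun w hw hwV => key w hw (hVw w hwV)⟩
  · obtain ⟨w, hw, hwV⟩ := hnv V hV0
    obtain ⟨c, hc, _⟩ := key w hw (hVw w hwV)
    intro h0
    rw [h0] at hc
    simp at hc
  · refine Finset.card_image_le.trans ?_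
    rw [Finset.offDiag_card, Nat.mul_sub, mul_one, Finset.card_univ, Fintype.card_fin]



open MvPolynomial in
lemma top_mul {n : ℕ} {F : Type*} [Field F] {f g : MvPolynomial (Fin n) F} {a b : Fin n →₀ ℕ}
    (hf : Top f a) (hg : Top g b) : Top (f * g) (a + b) := by
  classical
  constructor
  · rw [mem_support_iff, coeff_mul, Finset.sum_eq_single (a, b)]
    · exact mul_ne_zero (mem_support_iff.1 hf.1) (mem_support_iff.1 hg.1)
    · rintro ⟨x, y⟩ hxy hne
      by_contra h
      have h1 := hf.2 x (mem_support_iff.2 (left_ne_zero_of_mul h))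
      have h2 := hg.2 y (mem_support_iff.2 (right_ne_zero_of_mul h))
      have h3 : x + y = a + b := Finset.HasAntidiagonal.mem_antidiagonal.1 hxy
      apply hne
      refine Prod.ext (Finsupp.ext fun i => ?_) (Finsupp.ext fun i => ?_)
      · have := h1 i; have := h2 i; have h4 := DFunLike.congr_fun h3 i
        simp only [Finsupp.add_apply] at h4
        show x i = a i
        omega
      · have := h1 i; have := h2 i; have h4 := DFunLike.congr_fun h3 i
        simp only [Finsupp.add_apply] at h4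
        show y i = b i
        omega
    · intro h
      exfalso
      apply h
      rw [Finset.HasAntidiagonal.mem_antidiagonal]
  · intro c hc
    obtain ⟨x, hx, y, hy, rfl⟩ := Finset.mem_add.1 (support_mul f g hc)
    exact add_le_add (hf.2 x hx) (hg.2 y hy)

open MvPolynomial in
lemma top_univ {n : ℕ} {F : Type*} [Field F] (i : Fin n) (p : Polynomial F) (hp : p ≠ 0) :
    Top (Polynomial.aeval (X i : MvPolynomial (Fin n) F) p) (Finsupp.single i p.natDegree) := by
  classical
  have hc : ∀ c, coeff c (Polynomial.aeval (X i : MvPolynomial (Fin n) F) p) =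
      ∑ k ∈ Finset.range (p.natDegree + 1), if Finsupp.single i k = c then p.coeff k else 0 := by
    intro c
    rw [Polynomial.aeval_eq_sum_range, coeff_sum]
    refine Finset.sum_congr rfl fun k _ => ?_
    rw [coeff_smul, coeff_X_pow, smul_eq_mul, mul_ite, mul_one, mul_zero]
  constructor
  · rw [mem_support_iff, hc, Finset.sum_eq_single p.natDegree]
    · rw [if_pos rfl]
      exact Polynomial.leadingCoeff_ne_zero.2 hp
    · intro k _ hk
      rw [if_neg]
      intro h
      exact hk (Finsupp.single_injective i h)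
    · intro h; exact absurd (Finset.self_mem_range_succ _) h
  · intro c hc'
    rw [mem_support_iff, hc] at hc'
    obtain ⟨k, hk, hne⟩ := Finset.exists_ne_zero_of_sum_ne_zero hc'
    have h1 : Finsupp.single i k = c := by
      by_contra h
      rw [if_neg h] at hne
      exact hne rfl
    rw [← h1]
    intro j
    by_cases hj : j = i
    · subst hj
      rw [Finsupp.single_eq_same, Finsupp.single_eq_same]
      exact Nat.lt_succ_iff.1 (Finset.mem_range.1 hk)
    · rw [Finsupp.single_eq_of_ne hj]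
      exact Nat.zero_le _

open MvPolynomial in
lemma top_prod {n : ℕ} {F : Type*} [Field F] (p : Fin n → Polynomial F) (hp : ∀ i, p i ≠ 0) :
    Top (∏ i, Polynomial.aeval (X i : MvPolynomial (Fin n) F) (p i))
      (∑ i, Finsupp.single i (p i).natDegree) := by
  classical
  refine Finset.induction_on (Finset.univ : Finset (Fin n)) ?_ ?_
  · rw [Finset.prod_empty, Finset.sum_empty]
    constructor
    · rw [mem_support_iff, coeff_zero_one]
      exact one_ne_zero
    · intro b hb
      rw [mem_support_iff, coeff_one] at hb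
      by_cases h : 0 = b
      · exact h ▸ le_rfl
      · rw [if_neg h] at hb
        exact absurd rfl hb
  · intro i S hi ih
    rw [Finset.prod_insert hi, Finset.sum_insert hi]
    exact top_mul (top_univ i (p i) (hp i)) ih

open MvPolynomial in
/-- Sums of products of univariate polynomials with pairwise different multidegrees. -/
lemma fewLead_prod {n s : ℕ} {F : Type*} [Field F] (hs : 0 < s)
    (p : Fin s → Fin n → Polynomial F) (hp : ∀ j i, p j i ≠ 0)
    (hinj : Function.Injective fun j i => (p j i).natDegree) :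
    FewLead (s * (s - 1)) (∑ j, ∏ i, Polynomial.aeval (X i : MvPolynomial (Fin n) F) (p j i)) := by
  classical
  refine fewLead_sum hs _ _ (fun j => top_prod (p j) (hp j)) ?_
  intro j j' h
  apply hinj
  funext i
  have h1 := DFunLike.congr_fun h i
  have h2 : ∀ j, (∑ l, Finsupp.single l (p j l).natDegree : Fin n →₀ ℕ) i = (p j i).natDegree := by
    intro j
    rw [Finsupp.finsetSum_apply, Finset.sum_eq_single i]
    · rw [Finsupp.single_eq_same]
    · intro l _ hl
      rw [Finsupp.single_eq_of_ne hl.symm]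
    · intro h; exact absurd (Finset.mem_univ i) h
  simp only [h2] at h1
  exact h1

open MvPolynomial in
lemma eval_cast {n : ℕ} (g : MvPolynomial (Fin n) ℤ) (x : Fin n → ℕ) :
    eval (fun i => (x i : ℚ)) (map (Int.castRingHom ℚ) g) =
      ((eval (fun i => (x i : ℤ)) g : ℤ) : ℚ) := by
  rw [eval_map, eval₂_eq', eval_eq']
  push_cast
  rfl

open MvPolynomial in
lemma exists_point {n : ℕ} (e D : ℕ) (G : MvPolynomial (Fin n) ℚ)
    (hG : G ∈ Submonoid.closure {G : MvPolynomial (Fin n) ℚ | FewLead e G})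
    (g : MvPolynomial (Fin n) ℤ) (hgG : map (Int.castRingHom ℚ) g ∣ G) (hg : g.totalDegree ≤ D) :
    ∃ x ∈ points n e D, eval (fun i => (x i : ℤ)) g ≠ 0 := by
  classical
  obtain ⟨h1, h2, h3⟩ := modulus_spec n e D
  have hdeg : (map (Int.castRingHom ℚ) g).totalDegree ≤ D := (Finset.sup_mono (support_map_subset _ _)).trans hg
  obtain ⟨k, hk, hne⟩ := exists_weight e D (modulus n e D) h2 h1 G hG _ hgG hdeg
  have hex : ∃ t ∈ Finset.range (modulus n e D * D + 1),
      eval (fun i : Fin n => (t : ℚ) ^ (k ^ (i : ℕ) % modulus n e D))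
        (map (Int.castRingHom ℚ) g) ≠ 0 := by
    by_contra h
    push Not at h
    apply hne
    refine Polynomial.eq_zero_of_natDegree_lt_card_of_eval_eq_zero _
      (f := fun i : Fin (modulus n e D * D + 1) => ((i : ℕ) : ℚ)) ?_ ?_ ?_
    · intro i j hij
      exact Fin.ext (Nat.cast_injective hij)
    · intro i
      rw [phi_eval]
      exact h i (Finset.mem_range.2 i.2)
    · rw [Fintype.card_fin]
      exact Nat.lt_succ_of_le ((phi_natDegree _ (modulus n e D)
        (fun i => (Nat.mod_lt _ h2.pos).le) _).trans (Nat.mul_le_mul_left _ hdeg))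
  obtain ⟨t, ht, hne'⟩ := hex
  refine ⟨fun i => t ^ (k ^ (i : ℕ) % modulus n e D), Finset.mem_image.2 ⟨(k, t),
    Finset.mem_product.2 ⟨Finset.mem_range.2 hk, ht⟩, rfl⟩, ?_⟩
  intro h0
  apply hne'
  have h4 := eval_cast g (fun i => t ^ (k ^ (i : ℕ) % modulus n e D))
  rw [h0] at h4
  push_cast at h4
  exact h4

lemma points_le (n e D : ℕ) (x : Fin n → ℕ) (hx : x ∈ points n e D) (i : Fin n) :
    x i ≤ (2 * (D * e * n + 2) * D + 1) ^ (2 * (D * e * n + 2)) := by
  classical
  obtain ⟨h1, h2, h3⟩ := modulus_spec n e D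
  have h4 : modulus n e D * D + 1 ≤ 2 * (D * e * n + 2) * D + 1 := by
    have := Nat.mul_le_mul_right D h3
    omega
  obtain ⟨z, hz, rfl⟩ := Finset.mem_image.1 hx
  obtain ⟨hz1, hz2⟩ := Finset.mem_product.1 hz
  rw [Finset.mem_range] at hz1 hz2
  have h5 : z.1 ^ (i : ℕ) % modulus n e D ≤ 2 * (D * e * n + 2) :=
    (Nat.mod_lt _ h2.pos).le.trans h3
  have h6 : z.2 ≤ 2 * (D * e * n + 2) * D + 1 := by omega
  calc z.2 ^ (z.1 ^ (i : ℕ) % modulus n e D)
      ≤ (2 * (D * e * n + 2) * D + 1) ^ (z.1 ^ (i : ℕ) % modulus n e D) :=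
        Nat.pow_le_pow_left h6 _
    _ ≤ _ := Nat.pow_le_pow_right (by omega) h5

open MvPolynomial in
/-- **A modular hitting set for polynomials of arbitrary degree.** -/
theorem result (n : ℕ) :
    -- the size of the explicit set of points and of its members
    (∀ e D, (points n e D).card ≤ 2 * (D * e * n + 2) * (2 * (D * e * n + 2) * D + 1) ∧
      ∀ x ∈ points n e D, ∀ i,
        x i ≤ (2 * (D * e * n + 2) * D + 1) ^ (2 * (D * e * n + 2))) ∧
    -- some point and some prime of `P` detect `f`, which may have any degree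
    (∀ (e D h : ℕ) (P : Finset ℕ), (∀ p ∈ P, p.Prime) →
      h + 2 * (D * e * n + 2) * D * Nat.size (2 * (D * e * n + 2) * D) < P.card →
      ∀ G ∈ Submonoid.closure {G : MvPolynomial (Fin n) ℚ | FewLead e G},
      ∀ g : MvPolynomial (Fin n) ℤ, map (Int.castRingHom ℚ) g ∣ G → g.totalDegree ≤ D →
        norm1 g ≤ 2 ^ h → ∀ (N : ℕ) (f : MvPolynomial (Fin n) ℤ), f ∣ g ^ N →
          ∃ x ∈ points n e D, ∃ p ∈ P, ¬ (p : ℤ) ∣ eval (fun i => (x i : ℤ)) f) ∧
    -- sums of polynomials with pairwise different largest exponent vectors are in the class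
    (∀ (s : ℕ), 0 < s → ∀ (g : Fin s → MvPolynomial (Fin n) ℚ) (a : Fin s → (Fin n →₀ ℕ)),
      (∀ j, Top (g j) (a j)) → Function.Injective a → FewLead (s * (s - 1)) (∑ j, g j)) ∧
    -- for example sums of products of univariate polynomials with different multidegrees
    (∀ (s : ℕ), 0 < s → ∀ p : Fin s → Fin n → Polynomial ℚ, (∀ j i, p j i ≠ 0) →
      Function.Injective (fun j i => (p j i).natDegree) →
        FewLead (s * (s - 1)) (∑ j, ∏ i, Polynomial.aeval
          (X i : MvPolynomial (Fin n) ℚ) (p j i))) := by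
  classical
  refine ⟨fun e D => ⟨?_, points_le n e D⟩, ?_, fun s hs g a ha hinj =>
    fewLead_sum hs g a ha hinj, fun s hs p hp hinj => fewLead_prod hs p hp hinj⟩
  · obtain ⟨h1, h2, h3⟩ := modulus_spec n e D
    have h4 : modulus n e D * D + 1 ≤ 2 * (D * e * n + 2) * D + 1 := by
      have := Nat.mul_le_mul_right D h3
      omega
    refine Finset.card_image_le.trans ?_
    rw [Finset.card_product, Finset.card_range, Finset.card_range]
    exact Nat.mul_le_mul h3 h4
  · intro e D h P hP hcard G hG g hgG hg hnorm N f hf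
    obtain ⟨x, hx, hne⟩ := exists_point e D G hG g hgG hg
    set Q := 2 * (D * e * n + 2) with hQ
    have hb := eval_bound g x ((Q * D + 1) ^ Q) (Nat.one_le_pow _ _ (by omega))
      (fun i => points_le n e D x hx i)
    have hb2 : (eval (fun i => (x i : ℤ)) g).natAbs < 2 ^ P.card := by
      refine lt_of_le_of_lt hb (lt_of_le_of_lt ?_ (Nat.pow_lt_pow_right (by norm_num) hcard))
      rw [pow_add]
      refine Nat.mul_le_mul hnorm ?_
      calc ((Q * D + 1) ^ Q) ^ g.totalDegree ≤ ((Q * D + 1) ^ Q) ^ D :=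
            Nat.pow_le_pow_right (Nat.one_le_pow _ _ (by omega)) hg
        _ = (Q * D + 1) ^ (Q * D) := by rw [← pow_mul]
        _ ≤ (2 ^ Nat.size (Q * D)) ^ (Q * D) :=
            Nat.pow_le_pow_left (Nat.lt_size_self _) _
        _ = 2 ^ (Q * D * Nat.size (Q * D)) := by rw [← pow_mul, mul_comm]
    obtain ⟨p, hp, hpd⟩ := exists_prime_not_dvd P hP _ (Int.natAbs_ne_zero.2 hne) hb2
    refine ⟨x, hx, p, hp, fun hdvd => hpd ?_⟩
    have h1 : eval (fun i => (x i : ℤ)) f ∣ (eval (fun i => (x i : ℤ)) g) ^ N := by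
      rw [← map_pow]
      exact map_dvd _ hf
    have h2 : (p : ℤ) ∣ eval (fun i => (x i : ℤ)) g :=
      (Nat.prime_iff_prime_int.1 (hP p hp)).dvd_of_dvd_pow (hdvd.trans h1)
    exact Int.natCast_dvd.1 h2

end Pool.Agent.Results.MP_b2b50d_lc.FewLeadingTerms
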