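import Pool.Agent.H800R3.VF6

/-!
# Identity testing for polynomials with differential relations

Let `f` be a polynomial over a field of characteristic zero and `p` a point.  A differential
relation of order `r + 1` for `f` is a homogeneous linear differential operator `L` of this order
with polynomial coefficients such that `L f` lies in the ideal generated by the derivatives of `f`
of order at most `r` (for instance the leading part of any operator of order `r + 1` which
annihilates `f`).  Suppose that the coordinate subspace `p + F ^ J` is noncharacteristic for the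
relations of `f`: the symbols at `p` and the variables in `J` generate an ideal which contains all
forms of some degree `N`.  Then `f` vanishes as soon as its derivatives of order less than `N`
vanish on the subspace, and as soon as `f` vanishes on the coordinate subspaces through `p` with
less than `N` free variables besides those in `J`.
-/

set_option autoImplicit false

namespace Pool.Agent.Results.MP_b2b50d_lc.NoncharacteristicSlices

open MvPolynomial Pool.Agent.H800R3.VF

theorem degreeOf_dl_le {F σ : Type*} [Field F] (f : MvPolynomial σ F) (l : List σ) (j : σ) :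
    (dl l f).degreeOf j ≤ f.degreeOf j := by
  classical
  induction l with
  | nil => exact le_rfl
  | cons i l ih =>
    refine le_trans ?_ ih
    rw [dl_cons, degreeOf_le_iff]
    intro m hm
    rw [mem_support_iff, coeff_pderiv] at hm
    have h1 : m + Finsupp.single i 1 ∈ (dl l f).support := by
      rw [mem_support_iff]
      intro h0
      apply hm
      rw [h0, zero_mul]
    have h2 := monomial_le_degreeOf j h1
    rw [Finsupp.add_apply] at h2
    omega

/-- **Identity testing on noncharacteristic slices.** Let `V` be a set of differential relations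
of `f`, and suppose that the symbols at `p` of the elements of `V` and the variables `X j`, `j ∈ J`,
generate an ideal containing all monomials of degree `N` (all words of length `N`).
(1) `f ≠ 0` if and only if some derivative of `f` of order less than `N` is nonzero at a point
which agrees with `p` outside `J` and has natural coordinates `y j ≤ deg_j f` for `j ∈ J`.
(2) `f ≠ 0` if and only if there is a set `S` of fewer than `N` variables such that `f` is nonzero
at a point which agrees with `p` outside `S ∪ J` and has natural coordinates `y j ≤ deg_j f` for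
`j ∈ S ∪ J`. -/
theorem result {F σ : Type*} [Field F] [CharZero F] [Fintype σ] [DecidableEq σ]
    (f : MvPolynomial σ F) (p : σ → F) (V : Set (DiffOp F σ))
    (hV : ∀ L ∈ V, L.apply f ∈ lower f L.r) (J : Finset σ) (N : ℕ)
    (hN : ∀ l : List σ, l.length = N →
      word F l ∈ Ideal.span ({q | ∃ L ∈ V, q = L.symbol p} ∪ {q | ∃ j ∈ J, q = X j})) :
    (f ≠ 0 ↔ ∃ l : List σ, l.length < N ∧ ∃ y : σ → ℕ, (∀ j, y j ≤ f.degreeOf j) ∧
      eval (glue p J fun j => (y j : F)) (dl l f) ≠ 0) ∧
    (f ≠ 0 ↔ ∃ S : Finset σ, S.card < N ∧ ∃ y : σ → ℕ, (∀ j, y j ≤ f.degreeOf j) ∧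
      eval (glue p (S ∪ J) fun j => (y j : F)) f ≠ 0) := by
  have hN' : ∀ l : List σ, l.length = N →
      word F l ∈ Submodule.span F (Set.range (U V J N p)) := by
    intro l hl
    have h1 := component_mem _ (Submodule.span F (Set.range (U V J N p))) N ?_ _ (hN l hl)
    · rw [homogeneousComponent_of_mem
        ((mem_homogeneousSubmodule _ _).2 (hl ▸ word_isHomogeneous l)), if_pos rfl] at h1
      exact h1
    · rintro s (⟨L, hL, rfl⟩ | ⟨j, hj, rfl⟩)
      · exact ⟨L.r + 1, symbol_isHomogeneous L p, fun μ hμ =>
          Submodule.subset_span ⟨Sum.inl ⟨(L, μ), hL, hμ⟩, rfl⟩⟩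
      · refine ⟨1, isHomogeneous_X F j, fun μ hμ =>
          Submodule.subset_span ⟨Sum.inr ⟨(j, μ), hj, hμ⟩, ?_⟩⟩
        show word F (j :: μ) = word F μ * X j
        rw [word_cons, mul_comm]
  have hglue : ∀ (J : Finset σ) (y : σ → F), (∀ i, i ∉ J → y i = p i) → glue p J y = y := by
    intro J y hy
    funext i
    unfold glue
    split_ifs with h
    · rfl
    · exact (hy i h).symm
  have h1 : (∀ l : List σ, l.length < N → ∀ y : σ → F, (∀ i, i ∉ J → y i = p i) →
      eval y (dl l f) = 0) → f = 0 := noncharacteristic f p V hV J N hN'
  refine ⟨⟨fun hf => ?_, ?_⟩, ⟨fun hf => ?_, ?_⟩⟩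
  · by_contra hcon
    push Not at hcon
    refine hf (h1 fun l hl y hy => ?_)
    by_contra hne
    rw [← hglue J y hy] at hne
    obtain ⟨z, hz1, hz2⟩ := grid (dl l f) J p y hne
    exact hz2 (hcon l hl z fun j => (hz1 j).trans (degreeOf_dl_le f l j))
  · rintro ⟨l, _, y, _, hl⟩ h0
    apply hl
    rw [h0, dl_zero, map_zero]
  · by_contra hcon
    push Not at hcon
    refine hf (h1 fun l hl y hy => ?_)
    refine small_subspaces f y N (fun S hS z => ?_) l hl
    by_contra hne
    have h2 : glue y S z = glue p (S ∪ J) (glue y S z) := by
      refine (hglue (S ∪ J) _ fun i hi => ?_).symm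
      rw [Finset.mem_union, not_or] at hi
      unfold glue
      rw [if_neg hi.1]
      exact hy i hi.2
    rw [h2] at hne
    obtain ⟨x, hx1, hx2⟩ := grid f (S ∪ J) p _ hne
    exact hx2 (hcon S hS x hx1)
  · rintro ⟨S, _, y, _, hy⟩ h0
    apply hy
    rw [h0, map_zero]

end Pool.Agent.Results.MP_b2b50d_lc.NoncharacteristicSlices
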