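import Pool.Agent.H964R3.GenMain

/-!
# Identity testing for circuits of exponential degree: power products of general bases in
unboundedly many classes that are far from each other

`ACIT` is the set of the codes of the well-formed arithmetic circuits computing the zero
polynomial. For all fixed `k`, `r` and every fixed exponent `c` there is a deterministic
polynomial-time machine that accepts all of `ACIT` and rejects all codes of circuits that compute
a polynomial with `TameGen k r (s ^ c)`, where `s` is the length of the code.

The class consists of sums `∑_i c_i ∏_j g_j ^ e_ij` of unboundedly many power products with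
exponentially large exponents (and of divisors of products of such sums). The bases `g_j` are
polynomials in `k` polynomials of degree at most `r`; so all polynomials of bounded degree in
unboundedly many variables are allowed as bases (depth-4 circuits of bounded bottom degree), and
all polynomials in boundedly many linear forms. The products are divided into arbitrarily many
classes that are far from each other; a class has at most two products, or, after division by a
common factor, bounded degree, or bases of bounded transcendence degree, or affine bases and
bounded transcendence degree or boundedly many clusters. For example it contains all sums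
`∑_{i < m} c_i ∏_{j < p} (g_j ^ N) ^ f_ij` with pairwise coprime `g_j` of degree at most `r` and
`N > p r m ^ 2` (see `fewGen_of_powers` below).

New ingredients: `sepW` (a linear relation among power products of pairwise coprime polynomials in
one variable splits along far classes; Wronskian argument), `isCoprime_line` (the substitution
`x_i = ∑_{t ≤ v} y_t z_t ^ i` keeps relatively prime bases of the above kind coprime on a generic
line: Gauss' lemma and resultants), `faithful_low` (the substitution is injective on algebras
generated by boundedly many polynomials of bounded degree: Jacobian criterion), `hitJ` and the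
decision procedure `algJ` (bases which do not stay primitive, finitely many exceptional primes in
the content). The starting files `Pool.Agent.H531R2` and `Pool.Agent.H626R2` are used for the
Jacobian criterion, the case of one class of affine bases, the p-adic estimate and the machine
model.
-/

set_option autoImplicit false

namespace Pool.Agent.Results.MP_b2b50d_lc.SeparatedBases

open Pool.Agent.NPC Pool.Agent.H531R2 Pool.Agent.H964R3 MvPolynomial

theorem result (k r c : ℕ) : ∃ A : List Bool → List Bool, PolyTime A ∧
    (∀ x, A x = [true] ∨ A x = [false]) ∧
    (∀ x ∈ ACIT, A x = [true]) ∧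
    (∀ x, (∀ C : List Gate, WF C → bits C ≠ x) → A x = [false]) ∧
    ∀ C : List Gate, TameGen k r ((bits C).length ^ c) (cpoly C) → A (bits C) = [false] :=
  main_gen k r c

/-- Remark: all combinations of `m` products of `N`-th powers of `p` pairwise relatively prime
polynomials of degree between `1` and `r` are in the class if `N > p * r * m ^ 2`. -/
theorem fewGen_of_powers {r n m p N : ℕ} (S : Finset ℕ) (g : Fin p → MvPolynomial ℕ ℤ)
    (f : Fin m → Fin p → ℕ) (c : Fin m → ℚ) (hm : m ≤ n) (hp : p ≤ n) (hS : S.card ≤ n)
    (hg : ∀ j, (g j).vars ⊆ S ∧ 1 ≤ (g j).totalDegree ∧ (g j).totalDegree ≤ r ∧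
      nrm (g j) ≤ 2 ^ n) (hr : r ≤ n)
    (hgg : ∀ j j', j ≠ j' →
      IsRelPrime (map (Int.castRingHom ℚ) (g j)) (map (Int.castRingHom ℚ) (g j')))
    (hN : p * r * m ^ 2 < N) (hf : Function.Injective f) (hfN : ∀ i j, N * f i j ≤ 2 ^ n) :
    FewGen 1 r n (∑ i, C (c i) * ∏ j, (map (Int.castRingHom ℚ) (g j) ^ N) ^ f i j) := by
  classical
  have hsum : ∑ j, (g j).totalDegree ≤ p * r := by
    refine (Finset.sum_le_card_nsmul Finset.univ _ r fun j _ => (hg j).2.2.1).trans ?_
    simp
  have hlt : (∑ j, (g j).totalDegree) * m ^ 2 < N :=
    lt_of_le_of_lt (Nat.mul_le_mul_right _ hsum) hN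
  have hone : ∀ a b : Fin p → ℕ, (∃ j, b j < a j) →
      (∑ j, (g j).totalDegree) * m ^ 2 < ∑ j, (g j).totalDegree * (N * a j - N * b j) := by
    rintro a b ⟨j, hj⟩
    refine lt_of_lt_of_le hlt (le_trans ?_ (Finset.single_le_sum
      (f := fun j => (g j).totalDegree * (N * a j - N * b j)) (fun _ _ => Nat.zero_le _)
      (Finset.mem_univ j)))
    rw [← Nat.mul_sub]
    exact (Nat.le_mul_of_pos_right N (by omega)).trans
      (Nat.le_mul_of_pos_left _ (hg j).2.1)
  refine ⟨m, p, S, g, fun i j => N * f i j, c, fun i => i, hm, hp, hS, ?_, hfN, Or.inr hgg,
    ?_, ?_, ?_⟩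
  · intro j
    refine ⟨?_, (hg j).1, (hg j).2.2.1.trans hr, (hg j).2.2.2, ?_⟩
    · intro h0
      have := (hg j).2.1
      rw [h0, totalDegree_zero] at this
      omega
    · refine ⟨fun _ => map (Int.castRingHom ℚ) (g j), X 0, fun _ => ?_, by rw [aeval_X]⟩
      refine le_trans ?_ (hg j).2.2.1
      rw [totalDegree, totalDegree, support_map_of_injective _ Int.cast_injective]
  · intro i i' hii
    have hne : f i ≠ f i' := fun h => hii (by rw [hf h])
    obtain ⟨j, hj⟩ : ∃ j, f i j ≠ f i' j := by
      by_contra hcon
      push Not at hcon
      exact hne (funext hcon)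
    rcases Nat.lt_or_gt_of_ne hj with h | h
    · exact Or.inr (hone _ _ ⟨j, h⟩)
    · exact Or.inl (hone _ _ ⟨j, h⟩)
  · intro l
    refine Or.inl ⟨hgg, fun i i' i'' hi hi' _ => Or.inl ?_⟩
    have h1 : i = i' := Fin.ext (hi.trans hi'.symm)
    rw [h1]
  · refine Finset.sum_congr rfl fun i _ => ?_
    congr 1
    refine Finset.prod_congr rfl fun j _ => ?_
    rw [pow_mul]

end Pool.Agent.Results.MP_b2b50d_lc.SeparatedBases
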